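import Pool.Agent.Helper88.SE.Goals

/-!
# Packet SE-CL: the choice of the class
-/

set_option autoImplicit false

namespace Pool.Agent.Helper59.SE

open Finset

lemma card_cop (Q i : ℕ) :
    ((range Q).filter (fun b => Nat.Coprime (b + i) Q)).card = Nat.totient Q := by
  rw [← Nat.filter_coprime_Ico_eq_totient Q i]
  refine Finset.card_bij (fun b _ => b + i) ?_ ?_ ?_
  · intro b hb
    rw [mem_filter, mem_range] at hb
    rw [mem_filter, mem_Ico]
    exact ⟨⟨by omega, by omega⟩, hb.2.symm⟩
  · intro a _ b _ h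
    omega
  · intro n hn
    rw [mem_filter, mem_Ico] at hn
    refine ⟨n - i, ?_, by omega⟩
    rw [mem_filter, mem_range]
    refine ⟨by omega, ?_⟩
    rw [Nat.sub_add_cancel hn.1.1]
    exact hn.2.symm

theorem cl : Pool.Agent.Helper88.SE.StmtCL := by
  intro Q P hQ
  have hQ0 : (0 : ℝ) < Q := by exact_mod_cast hQ
  obtain ⟨f, hf⟩ : ∃ f : ℕ → ℕ, f = fun b => (P.filter (fun i => Nat.Coprime (b + i) Q)).card :=
    ⟨_, rfl⟩
  obtain ⟨μ, hμ⟩ : ∃ μ : ℝ, μ = P.card * (Nat.totient Q / Q : ℝ) := ⟨_, rfl⟩
  have hμ0 : 0 ≤ μ := by rw [hμ]; positivity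
  have hsum : ∑ b ∈ range Q, (f b : ℝ) = Q * μ := by
    have h1 : ∑ b ∈ range Q, f b = P.card * Nat.totient Q := by
      rw [hf]
      simp only [card_filter]
      rw [sum_comm]
      rw [sum_congr rfl fun i _ => ?_, sum_const, smul_eq_mul]
      rw [← card_filter]
      exact card_cop Q i
    have h2 : ((∑ b ∈ range Q, f b : ℕ) : ℝ) = P.card * Nat.totient Q := by
      rw [h1]; push_cast; rfl
    push_cast at h2
    rw [h2, hμ]
    field_simp
  have hgoal : (Q : ℝ) / 2 ≤ (((range Q).filter (fun b => (f b : ℝ) ≤ 2 * μ)).card : ℝ) := by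
    have hsplit : ((((range Q).filter (fun b => (f b : ℝ) ≤ 2 * μ)).card : ℝ)) +
        (((range Q).filter (fun b => ¬ (f b : ℝ) ≤ 2 * μ)).card : ℝ) = Q := by
      have := card_filter_add_card_filter_not (s := range Q) (fun b => (f b : ℝ) ≤ 2 * μ)
      rw [card_range] at this
      exact_mod_cast this
    have hbad : (((range Q).filter (fun b => ¬ (f b : ℝ) ≤ 2 * μ)).card : ℝ) ≤ Q / 2 := by
      rcases hμ0.eq_or_lt with h0 | h0
      · -- then every value is zero
        have h1 : ∀ b ∈ range Q, (f b : ℝ) = 0 := by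
          rw [← h0, mul_zero] at hsum
          exact (sum_eq_zero_iff_of_nonneg (fun b _ => by positivity)).1 hsum
        have h2 : (range Q).filter (fun b => ¬ (f b : ℝ) ≤ 2 * μ) = ∅ := by
          rw [filter_eq_empty_iff]
          intro b hb
          rw [h1 b hb]
          push Not
          linarith
        rw [h2, card_empty]
        push_cast
        positivity
      · have h1 : (((range Q).filter (fun b => ¬ (f b : ℝ) ≤ 2 * μ)).card : ℝ) * (2 * μ) ≤
            Q * μ := by
          rw [← hsum, ← nsmul_eq_mul, ← sum_const]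
          refine (sum_le_sum fun b hb => ?_).trans
            (sum_le_sum_of_subset_of_nonneg (filter_subset _ _) fun b _ _ => by positivity)
          exact (not_le.1 (mem_filter.1 hb).2).le
        nlinarith
    linarith
  rw [hf, hμ] at hgoal
  exact hgoal

end Pool.Agent.Helper59.SE
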