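import Pool.Agent.Helper96.SE.Goals

/-!
Project SE, packet DSC: the discriminant of an extension generated by an n-th root.
-/

open NumberField Polynomial

namespace Pool.Agent.Helper59.SE

open Pool.Agent.Helper96.SE

universe u

/-- the derivative of `X ^ n - b` at the root `y` is in the different ideal -/
theorem mem_different (k K : Type u) [Field k] [NumberField k] [Field K] [NumberField K]
    [Algebra k K] (n : ℕ) (b : 𝓞 k) (y : 𝓞 K) (hy : y ^ n = algebraMap (𝓞 k) (𝓞 K) b)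
    (hK : IntermediateField.adjoin k {(y : K)} = ⊤) :
    (n : 𝓞 K) * y ^ (n - 1) ∈ differentIdeal (𝓞 k) (𝓞 K) := by
  have hadj : Algebra.adjoin k {algebraMap (𝓞 K) K y} = ⊤ := by
    have h1 : (IntermediateField.adjoin k {(y : K)}).toSubalgebra = Algebra.adjoin k {(y : K)} :=
      IntermediateField.adjoin_simple_toSubalgebra_of_isAlgebraic
        (Algebra.IsAlgebraic.isAlgebraic (y : K))
    rw [hK, IntermediateField.top_toSubalgebra] at h1
    exact h1.symm
  have hmem := aeval_derivative_mem_differentIdeal (𝓞 k) k K y hadj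
  have hint : IsIntegral (𝓞 k) y := Algebra.IsIntegral.isIntegral y
  have hroot : aeval y (X ^ n - C b : (𝓞 k)[X]) = 0 := by
    rw [map_sub, map_pow, aeval_X, aeval_C, hy, sub_self]
  obtain ⟨g, hg⟩ := minpoly.isIntegrallyClosed_dvd hint hroot
  have hd := congrArg (fun p => aeval y (derivative p)) hg
  simp only [derivative_sub, derivative_X_pow, derivative_C, sub_zero, derivative_mul, map_add,
    map_mul, map_pow, aeval_X, minpoly.aeval, zero_mul, add_zero, map_natCast] at hd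
  rw [hd]
  exact Ideal.mul_mem_right _ _ hmem

theorem dsc : DSC.{u} := by
  intro k K _ _ _ _ _ n b y hn hb hy hK
  have hb' : algebraMap (𝓞 k) (𝓞 K) b ≠ 0 := by
    rw [Ne, FaithfulSMul.algebraMap_eq_zero_iff]
    exact hb
  have hy0 : y ≠ 0 := by
    rintro rfl
    rw [zero_pow (by omega)] at hy
    exact hb' hy.symm
  have hn0 : (n : 𝓞 K) ≠ 0 := Nat.cast_ne_zero.mpr (by omega)
  set z : 𝓞 K := (n : 𝓞 K) * y ^ (n - 1) with hz
  have hz0 : z ≠ 0 := mul_ne_zero hn0 (pow_ne_zero _ hy0)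
  have hmem : z ∈ differentIdeal (𝓞 k) (𝓞 K) := mem_different k K n b y hy hK
  have hdisc := natAbs_discr_eq_absNorm_differentIdeal_mul_natAbs_discr_pow k (𝓞 k) K (𝓞 K)
  have hdvd := Ideal.absNorm_dvd_norm_of_mem hmem
  have hNz : Algebra.norm ℤ z ≠ 0 := by
    rw [Algebra.norm_ne_zero_iff]
    exact hz0
  have hNy : Algebra.norm ℤ y ≠ 0 := by
    rw [Algebra.norm_ne_zero_iff]
    exact hy0
  have hNb : Algebra.norm ℤ b ≠ 0 := by
    rw [Algebra.norm_ne_zero_iff]
    exact hb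
  -- the norm of z
  have hN1 : Algebra.norm ℤ z = (n : ℤ) ^ (Module.finrank ℚ K) * (Algebra.norm ℤ y) ^ (n - 1) := by
    rw [hz, map_mul, map_pow]
    congr 1
    have h1 : ((n : ℤ) : 𝓞 K) = algebraMap ℤ (𝓞 K) (n : ℤ) := rfl
    have h2 : (n : 𝓞 K) = algebraMap ℤ (𝓞 K) (n : ℤ) := by simp
    rw [h2, Algebra.norm_algebraMap, RingOfIntegers.rank]
  -- the norm of y
  have hN2 : (Algebra.norm ℤ y) ^ n = (Algebra.norm ℤ b) ^ (Module.finrank k K) := by
    have h1 : ((Algebra.norm ℤ y : ℤ) : ℚ) ^ n = ((Algebra.norm ℤ b : ℤ) : ℚ) ^ (Module.finrank k K) := by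
      have h2 : ((y : K)) ^ n = algebraMap k K (b : k) := by
        have h3 := congrArg (algebraMap (𝓞 K) K) hy
        rw [map_pow] at h3
        rw [h3]
        exact (IsScalarTower.algebraMap_apply (𝓞 k) (𝓞 K) K b).symm.trans
          (IsScalarTower.algebraMap_apply (𝓞 k) k K b)
      calc ((Algebra.norm ℤ y : ℤ) : ℚ) ^ n = (Algebra.norm ℚ (y : K)) ^ n := by
            rw [Algebra.coe_norm_int]
        _ = Algebra.norm ℚ ((y : K) ^ n) := (map_pow _ _ _).symm
        _ = Algebra.norm ℚ (algebraMap k K (b : k)) := by rw [h2]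
        _ = Algebra.norm ℚ (Algebra.norm k (algebraMap k K (b : k))) := by
            rw [Algebra.norm_norm]
        _ = Algebra.norm ℚ ((b : k) ^ Module.finrank k K) := by rw [Algebra.norm_algebraMap]
        _ = (Algebra.norm ℚ (b : k)) ^ Module.finrank k K := map_pow _ _ _
        _ = ((Algebra.norm ℤ b : ℤ) : ℚ) ^ (Module.finrank k K) := by rw [Algebra.coe_norm_int]
    exact_mod_cast h1
  -- logarithms
  have hdk : (NumberField.discr k : ℤ) ≠ 0 := NumberField.discr_ne_zero k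
  have hle : (Ideal.absNorm (differentIdeal (𝓞 k) (𝓞 K)) : ℝ) ≤ |((Algebra.norm ℤ z : ℤ) : ℝ)| := by
    have h1 : ((Ideal.absNorm (differentIdeal (𝓞 k) (𝓞 K)) : ℕ) : ℤ) ≤ |Algebra.norm ℤ z| := by
      apply Int.le_of_dvd (abs_pos.mpr hNz)
      rw [dvd_abs]
      exact hdvd
    exact_mod_cast h1
  have hA : |(NumberField.discr K : ℝ)| ≤ |((Algebra.norm ℤ z : ℤ) : ℝ)| *
      |(NumberField.discr k : ℝ)| ^ Module.finrank k K := by
    have h1 : |(NumberField.discr K : ℝ)| = ((NumberField.discr K).natAbs : ℝ) := by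
      rw [Nat.cast_natAbs, Int.cast_abs]
    have h2 : |(NumberField.discr k : ℝ)| = ((NumberField.discr k).natAbs : ℝ) := by
      rw [Nat.cast_natAbs, Int.cast_abs]
    rw [h1, h2, hdisc]
    push_cast
    gcongr
  have hdK : (NumberField.discr K : ℝ) ≠ 0 := by exact_mod_cast NumberField.discr_ne_zero K
  have hdkR : (NumberField.discr k : ℝ) ≠ 0 := by exact_mod_cast hdk
  have hnR : (n : ℝ) ≠ 0 := by
    have : n ≠ 0 := by omega
    exact_mod_cast this
  have hlog := Real.log_le_log (abs_pos.mpr hdK) hA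
  have hNzR : |((Algebra.norm ℤ z : ℤ) : ℝ)| ≠ 0 := by
    rw [abs_ne_zero]; exact_mod_cast hNz
  rw [Real.log_mul hNzR (pow_ne_zero _ (abs_ne_zero.mpr hdkR)), Real.log_pow] at hlog
  have hNyR : |((Algebra.norm ℤ y : ℤ) : ℝ)| ≠ 0 := by
    rw [abs_ne_zero]; exact_mod_cast hNy
  have hlz : Real.log |((Algebra.norm ℤ z : ℤ) : ℝ)| = (Module.finrank ℚ K : ℝ) * Real.log n +
      ((n : ℝ) - 1) * Real.log |((Algebra.norm ℤ y : ℤ) : ℝ)| := by
    have h1 : |((Algebra.norm ℤ z : ℤ) : ℝ)| = (n : ℝ) ^ (Module.finrank ℚ K) *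
        |((Algebra.norm ℤ y : ℤ) : ℝ)| ^ (n - 1) := by
      rw [hN1]
      push_cast
      rw [abs_mul, abs_pow, abs_pow, Nat.abs_cast]
    rw [h1, Real.log_mul (pow_ne_zero _ hnR) (pow_ne_zero _ hNyR), Real.log_pow, Real.log_pow,
      Nat.cast_sub hn, Nat.cast_one]
  have hly : (n : ℝ) * Real.log |((Algebra.norm ℤ y : ℤ) : ℝ)| =
      (Module.finrank k K : ℝ) * Real.log |((Algebra.norm ℤ b : ℤ) : ℝ)| := by
    have h1 : |((Algebra.norm ℤ y : ℤ) : ℝ)| ^ n
        = |((Algebra.norm ℤ b : ℤ) : ℝ)| ^ (Module.finrank k K) := by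
      rw [← abs_pow, ← abs_pow]
      have : (((Algebra.norm ℤ y) ^ n : ℤ) : ℝ) = (((Algebra.norm ℤ b) ^ (Module.finrank k K) : ℤ) : ℝ) := by
        rw [hN2]
      push_cast at this
      rw [this]
    rw [← Real.log_pow, h1, Real.log_pow]
  have hrank : (Module.finrank ℚ K : ℝ) = (Module.finrank k K : ℝ) * (Module.finrank ℚ k : ℝ) := by
    rw [mul_comm]
    exact_mod_cast (Module.finrank_mul_finrank ℚ k K).symm
  refine hlog.trans (le_of_eq ?_)
  rw [hlz, hrank]
  have h5 : ((n : ℝ) - 1) * Real.log |((Algebra.norm ℤ y : ℤ) : ℝ)| =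
      (1 - 1 / (n : ℝ)) * ((Module.finrank k K : ℝ) * Real.log |((Algebra.norm ℤ b : ℤ) : ℝ)|) := by
    rw [← hly]
    field_simp
  rw [h5]
  ring

end Pool.Agent.Helper59.SE
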